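import Mathlib

/-!
# Trees on the natural numbers, nodes written latest entry first
-/

namespace Pool.Agent.H8.BCI

open Set

/-- The first `m` values of `v`, latest first. -/
def rs (v : ℕ → ℕ) : ℕ → List ℕ
  | 0 => []
  | m + 1 => v m :: rs v m

theorem rs_length (v : ℕ → ℕ) (m : ℕ) : (rs v m).length = m := by
  induction m with
  | zero => rfl
  | succ m ih => simp [rs, ih]

theorem rs_congr {v w : ℕ → ℕ} {m : ℕ} (h : ∀ i < m, v i = w i) : rs v m = rs w m := by
  induction m with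
  | zero => rfl
  | succ m ih => rw [rs, rs, h m (by omega), ih fun i hi => h i (by omega)]

/-- Trees: sets of nodes closed under removing the latest entry. -/
def PC (T : Set (List ℕ)) : Prop := ∀ n t, n :: t ∈ T → t ∈ T

/-- `T` has an infinite branch. -/
def Br (T : Set (List ℕ)) : Prop := ∃ v : ℕ → ℕ, ∀ m, rs v m ∈ T

/-- The level-preserving map given by `e`, with the root at the root. -/
def push (e : List ℕ → ℕ) : List ℕ → List ℕ
  | [] => []
  | n :: s => e (n :: s) :: push e s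

/-- The level-shifting map given by `e`. -/
def push1 (e : List ℕ → ℕ) : List ℕ → List ℕ
  | [] => [e []]
  | n :: s => e (n :: s) :: push1 e s

/-- There is a level-preserving homomorphism. -/
def Hom (T' T : Set (List ℕ)) : Prop := ∃ e : List ℕ → ℕ, ∀ s ∈ T', push e s ∈ T

/-- There is a level-shifting homomorphism. -/
def Hom1 (T' T : Set (List ℕ)) : Prop := ∃ e : List ℕ → ℕ, ∀ s ∈ T', push1 e s ∈ T

theorem push_rs (e : List ℕ → ℕ) (b : ℕ → ℕ) (m : ℕ) :
    push e (rs b m) = rs (fun m => e (rs b (m + 1))) m := by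
  induction m with
  | zero => rfl
  | succ m ih =>
    show e (b m :: rs b m) :: push e (rs b m) = e (b m :: rs b m) :: rs _ m
    rw [ih]

theorem push1_rs (e : List ℕ → ℕ) (b : ℕ → ℕ) (m : ℕ) :
    push1 e (rs b m) = rs (fun m => e (rs b m)) (m + 1) := by
  induction m with
  | zero => rfl
  | succ m ih =>
    show e (b m :: rs b m) :: push1 e (rs b m) = e (b m :: rs b m) :: rs _ (m + 1)
    rw [ih]

theorem Br.hom {T : Set (List ℕ)} (h : Br T) (T' : Set (List ℕ)) : Hom T' T := by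
  obtain ⟨v, hv⟩ := h
  refine ⟨fun s => v (s.length - 1), fun s _ => ?_⟩
  have : ∀ s : List ℕ, push (fun s => v (s.length - 1)) s = rs v s.length := by
    intro s
    induction s with
    | nil => rfl
    | cons n s ih =>
      show v (s.length + 1 - 1) :: push _ s = v s.length :: rs v s.length
      rw [ih]; rfl
  rw [this]; exact hv _

theorem Br.hom1 {T : Set (List ℕ)} (h : Br T) (T' : Set (List ℕ)) : Hom1 T' T := by
  obtain ⟨v, hv⟩ := h
  refine ⟨fun s => v s.length, fun s _ => ?_⟩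
  have : ∀ s : List ℕ, push1 (fun s => v s.length) s = rs v (s.length + 1) := by
    intro s
    induction s with
    | nil => rfl
    | cons n s ih =>
      show v (s.length + 1) :: push1 _ s = v (s.length + 1) :: rs v (s.length + 1)
      rw [ih]
  rw [this]; exact hv _

theorem Hom.br {T' T : Set (List ℕ)} (h : Hom T' T) (hb : Br T') : Br T := by
  obtain ⟨e, he⟩ := h
  obtain ⟨v, hv⟩ := hb
  exact ⟨_, fun m => by rw [← push_rs e v]; exact he _ (hv m)⟩

theorem Hom1.br {T' T : Set (List ℕ)} (h : Hom1 T' T) (hb : Br T') (h0 : [] ∈ T) : Br T := by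
  obtain ⟨e, he⟩ := h
  obtain ⟨v, hv⟩ := hb
  refine ⟨fun m => e (rs v m), fun m => ?_⟩
  cases m with
  | zero => exact h0
  | succ m => rw [← push1_rs e v]; exact he _ (hv m)

theorem exists_rs {C : List ℕ → Prop} (h0 : C []) (h : ∀ s, C s → ∃ n, C (n :: s)) :
    ∃ v : ℕ → ℕ, ∀ m, C (rs v m) := by
  choose g hg using h
  let q : ℕ → {s // C s} := fun m => Nat.rec ⟨[], h0⟩ (fun _ s => ⟨g s.1 s.2 :: s.1, hg _ _⟩) m
  have key : ∀ m, rs (fun m => g (q m).1 (q m).2) m = (q m).1 := by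
    intro m
    induction m with
    | zero => rfl
    | succ m ih =>
      show g (q m).1 (q m).2 :: rs _ m = g (q m).1 (q m).2 :: (q m).1
      rw [ih]
  exact ⟨_, fun m => by rw [key]; exact (q m).2⟩

theorem PC.of_append {T : Set (List ℕ)} (hT : PC T) {u t : List ℕ} (h : u ++ t ∈ T) : t ∈ T := by
  induction u with
  | nil => exact h
  | cons n u ih => exact ih (hT _ _ h)

/-- Bar induction. -/
theorem bar {T : Set (List ℕ)} (hT : PC T) (hb : ¬ Br T) {P : List ℕ → Prop}
    (h : ∀ s ∈ T, (∀ n, n :: s ∈ T → P (n :: s)) → P s) : ∀ s ∈ T, P s := by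
  by_contra hc
  push Not at hc
  obtain ⟨s, hs, hP⟩ := hc
  apply hb
  obtain ⟨v, hv⟩ := exists_rs (C := fun t => ∃ u, u ++ t ∈ T ∧ ¬ P (u ++ t))
    ⟨s, by simpa using hs, by simpa using hP⟩ (by
    rintro t ⟨u, hu, hPu⟩
    rcases List.eq_nil_or_concat u with rfl | ⟨u', n, rfl⟩
    · by_contra hc
      push Not at hc
      exact hPu (h _ hu fun n hn => hc n [] (by simpa using hn))
    · exact ⟨n, u', by simpa using hu, by simpa using hPu⟩)
  exact ⟨v, fun m => by
    obtain ⟨u, hu, -⟩ := hv m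
    exact hT.of_append hu⟩

/-- The greatest simulation. -/
def L (T E : Set (List ℕ)) (s t : List ℕ) : Prop :=
  ∃ S : List ℕ → List ℕ → Prop, S s t ∧
    ∀ s t, S s t → ∀ n, n :: s ∈ T → ∃ m, m :: t ∈ E ∧ S (n :: s) (m :: t)

theorem L_iff {T E : Set (List ℕ)} {s t : List ℕ} :
    L T E s t ↔ ∀ n, n :: s ∈ T → ∃ m, m :: t ∈ E ∧ L T E (n :: s) (m :: t) := by
  have key : ∀ {s t}, L T E s t → ∀ n, n :: s ∈ T → ∃ m, m :: t ∈ E ∧
      L T E (n :: s) (m :: t) := by
    rintro s t ⟨S, hS, h⟩ n hn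
    obtain ⟨m, hm, hS'⟩ := h s t hS n hn
    exact ⟨m, hm, S, hS', h⟩
  refine ⟨key, fun h => ⟨fun a b => (a = s ∧ b = t) ∨ L T E a b, Or.inl ⟨rfl, rfl⟩, ?_⟩⟩
  rintro a b (⟨rfl, rfl⟩ | hab) n hn
  · obtain ⟨m, hm, hL⟩ := h n hn
    exact ⟨m, hm, Or.inr hL⟩
  · obtain ⟨m, hm, hL⟩ := key hab n hn
    exact ⟨m, hm, Or.inr hL⟩

/-- The least good child. -/
noncomputable def gch (T E : Set (List ℕ)) (s t : List ℕ) : ℕ :=
  sInf {m | m :: t ∈ E ∧ L T E s (m :: t)}

theorem gch_spec {T E : Set (List ℕ)} {s t : List ℕ} (h : L T E s t) {n : ℕ} (hn : n :: s ∈ T) :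
    gch T E (n :: s) t :: t ∈ E ∧ L T E (n :: s) (gch T E (n :: s) t :: t) := by
  obtain ⟨m, hm⟩ := L_iff.1 h n hn
  exact Nat.sInf_mem (s := {m | m :: t ∈ E ∧ L T E (n :: s) (m :: t)}) ⟨m, hm⟩

/-- The map built from the least good children, starting at `t₀`. -/
noncomputable def eps (T E : Set (List ℕ)) (t₀ : List ℕ) : List ℕ → List ℕ
  | [] => t₀
  | n :: s => gch T E (n :: s) (eps T E t₀ s) :: eps T E t₀ s

/-- The values of that map, starting with `m₀`. -/
noncomputable def ev (T E : Set (List ℕ)) (t₀ : List ℕ) (m₀ : ℕ) : List ℕ → ℕ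
  | [] => m₀
  | n :: s => gch T E (n :: s) (eps T E t₀ s)

theorem eps_spec {T E : Set (List ℕ)} {t₀ : List ℕ} (hT : PC T) (h : L T E [] t₀)
    (h0 : t₀ ∈ E) (s : List ℕ) (hs : s ∈ T) : eps T E t₀ s ∈ E ∧ L T E s (eps T E t₀ s) := by
  induction s with
  | nil => exact ⟨h0, h⟩
  | cons n s ih => exact gch_spec (ih (hT _ _ hs)).2 hs

theorem push_ev (T E : Set (List ℕ)) (s : List ℕ) : push (ev T E [] 0) s = eps T E [] s := by
  induction s with
  | nil => rfl
  | cons n s ih =>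
    show gch T E (n :: s) (eps T E [] s) :: push (ev T E [] 0) s = _
    rw [ih]; rfl

theorem push1_ev (T E : Set (List ℕ)) (m : ℕ) (s : List ℕ) :
    push1 (ev T E [m] m) s = eps T E [m] s := by
  induction s with
  | nil => rfl
  | cons n s ih =>
    show gch T E (n :: s) (eps T E [m] s) :: push1 (ev T E [m] m) s = _
    rw [ih]; rfl

theorem hom_of_L {T E : Set (List ℕ)} (hT : PC T) (h0 : [] ∈ E) (h : L T E [] []) : Hom T E :=
  ⟨ev T E [] 0, fun s hs => by rw [push_ev]; exact (eps_spec hT h h0 s hs).1⟩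

theorem hom1_of_L {T E : Set (List ℕ)} (hT : PC T) {m : ℕ} (h0 : [m] ∈ E) (h : L T E [] [m]) :
    Hom1 T E :=
  ⟨ev T E [m] m, fun s hs => by rw [push1_ev]; exact (eps_spec hT h h0 s hs).1⟩

theorem L_of_hom1 {T E : Set (List ℕ)} (h0 : [] ∈ T) (h : Hom1 T E) :
    ∃ m, [m] ∈ E ∧ L T E [] [m] := by
  obtain ⟨e, he⟩ := h
  refine ⟨e [], he [] h0, fun s t => t = push1 e s, rfl, ?_⟩
  rintro s t rfl n hn
  exact ⟨e (n :: s), he _ hn, rfl⟩

/-- Comparison of trees. -/
theorem hom1_or_hom {T T' : Set (List ℕ)} (hT : PC T) (hT' : PC T') (h0 : [] ∈ T)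
    (h0' : [] ∈ T') : Hom1 T' T ∨ Hom T T' := by
  by_contra hc
  push Not at hc
  obtain ⟨h1, h2⟩ := hc
  apply h1
  apply Br.hom1
  obtain ⟨v, hv⟩ := exists_rs
    (C := fun s => s ∈ T ∧ ∃ s', ¬ L T T' s s' ∧ ∀ n, n :: s ∈ T → ¬ L T' T s' (n :: s)) (by
      refine ⟨h0, [], fun h => h2 (hom_of_L hT h0' h), fun n hn h => h1 (hom1_of_L hT' hn h)⟩) (by
      rintro s ⟨hs, s', ha, hb⟩
      rw [L_iff] at ha
      push Not at ha
      obtain ⟨n, hn, hn'⟩ := ha
      have := hb n hn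
      rw [L_iff] at this
      push Not at this
      obtain ⟨m, hm, hm'⟩ := this
      exact ⟨n, hn, m :: s', hn' m hm, fun n' hn'' => hm' n' hn''⟩)
  exact ⟨v, fun m => (hv m).1⟩

/-! ## Coded trees -/

/-- Codes of analytic sets. -/
abbrev K : Type := List ℕ × List ℕ → Bool

/-- Membership in the tree of the code `a` at `w`. -/
def InTr (a : K) (w : ℕ → ℕ) : List ℕ → Prop
  | [] => True
  | n :: t => InTr a w t ∧ a (rs w (t.length + 1), n :: t) = true

/-- The tree of the code `a` at `w`. -/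
def Tr (a : K) (w : ℕ → ℕ) : Set (List ℕ) := {t | InTr a w t}

theorem nil_mem_Tr (a : K) (w : ℕ → ℕ) : [] ∈ Tr a w := trivial

theorem pc_Tr (a : K) (w : ℕ → ℕ) : PC (Tr a w) := fun _ _ h => h.1

theorem mem_Tr_cons (a : K) (w : ℕ → ℕ) (n : ℕ) (t : List ℕ) :
    n :: t ∈ Tr a w ↔ t ∈ Tr a w ∧ a (rs w (t.length + 1), n :: t) = true := Iff.rfl

theorem br_Tr (a : K) (w : ℕ → ℕ) :
    Br (Tr a w) ↔ ∃ v, ∀ m, a (rs w (m + 1), rs v (m + 1)) = true := by
  refine exists_congr fun v => ⟨fun h m => ?_, fun h m => ?_⟩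
  · have := (h (m + 1)).2
    rw [rs_length] at this
    exact this
  · induction m with
    | zero => exact nil_mem_Tr a w
    | succ m ih =>
      refine ⟨ih, ?_⟩
      rw [rs_length]
      exact h m

theorem Tr_congr {a : K} {w w' : ℕ → ℕ} {s : List ℕ} (h : ∀ i < s.length, w i = w' i) :
    s ∈ Tr a w ↔ s ∈ Tr a w' := by
  induction s with
  | nil => exact Iff.rfl
  | cons n t ih =>
    rw [mem_Tr_cons, mem_Tr_cons, ih fun i hi => h i (by simp; omega),
      rs_congr (m := t.length + 1) fun i hi => h i (by simpa using hi)]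

theorem rs_eq_iff {v w : ℕ → ℕ} {m : ℕ} : rs v m = rs w m ↔ ∀ i < m, v i = w i := by
  refine ⟨fun h => ?_, rs_congr⟩
  induction m with
  | zero => intro i hi; omega
  | succ m ih =>
    rw [rs, rs, List.cons.injEq] at h
    intro i hi
    rcases Nat.lt_succ_iff_lt_or_eq.1 hi with hi | rfl
    · exact ih h.2 i hi
    · exact h.1

/-- Every analytic set has a code. -/
theorem exists_code {A : Set (ℕ → ℕ)} (hA : MeasureTheory.AnalyticSet A) :
    ∃ a : K, ∀ w, w ∈ A ↔ Br (Tr a w) := by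
  classical
  rw [MeasureTheory.AnalyticSet] at hA
  rcases hA with rfl | ⟨f, hf, rfl⟩
  · refine ⟨fun _ => false, fun w => ?_⟩
    rw [br_Tr]
    simp
  · refine ⟨fun p => decide (∃ v w : ℕ → ℕ, f v = w ∧ rs w p.1.length = p.1 ∧
      rs v p.2.length = p.2), fun w => ?_⟩
    rw [br_Tr]
    constructor
    · rintro ⟨v, rfl⟩
      exact ⟨v, fun m => by simp only [rs_length]; exact decide_eq_true ⟨v, _, rfl, rfl, rfl⟩⟩
    · rintro ⟨v, hv⟩
      refine ⟨v, ?_⟩
      have h1 : ∀ m, ∃ v' : ℕ → ℕ, (∀ i < m + 1, f v' i = w i) ∧ ∀ i < m + 1, v' i = v i := by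
        intro m
        have := of_decide_eq_true (hv m)
        obtain ⟨v', w', rfl, hw, hv'⟩ := this
        simp only [rs_length] at hw hv'
        exact ⟨v', rs_eq_iff.1 hw, rs_eq_iff.1 hv'⟩
      choose u hu1 hu2 using h1
      have hlim : Filter.Tendsto u Filter.atTop (nhds v) := by
        rw [tendsto_pi_nhds]
        intro i
        refine tendsto_const_nhds.congr' ?_
        filter_upwards [Filter.eventually_ge_atTop i] with m hm
        exact (hu2 m i (by omega)).symm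
      have h2 := (hf.tendsto v).comp hlim
      have h3 : Filter.Tendsto (f ∘ u) Filter.atTop (nhds w) := by
        rw [tendsto_pi_nhds]
        intro i
        refine tendsto_const_nhds.congr' ?_
        filter_upwards [Filter.eventually_ge_atTop i] with m hm
        exact (hu1 m i (by omega)).symm
      exact tendsto_nhds_unique h2 h3

end Pool.Agent.H8.BCI
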