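import Pool.Agent.H8.BCI.Tree

/-!
# Analytic subsets of measurable spaces, projections along compact sets
-/

namespace Pool.Agent.H8.BCI

open Set MeasureTheory Function

variable {X Y : Type*} [MeasurableSpace X] [MeasurableSpace Y]

/-- Analytic subsets of a measurable space: projections of measurable sets along Baire space. -/
def An (A : Set X) : Prop :=
  ∃ P : Set (X × (ℕ → ℕ)), MeasurableSet P ∧ ∀ x, x ∈ A ↔ ∃ v, (x, v) ∈ P

theorem An.of_measurableSet {A : Set X} (h : MeasurableSet A) : An A :=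
  ⟨Prod.fst ⁻¹' A, measurable_fst h, fun x => by simp⟩

theorem An.preimage {A : Set X} (h : An A) {f : Y → X} (hf : Measurable f) : An (f ⁻¹' A) := by
  obtain ⟨P, hP, h⟩ := h
  refine ⟨(fun p : Y × (ℕ → ℕ) => (f p.1, p.2)) ⁻¹' P, ?_, fun y => h (f y)⟩
  exact ((hf.comp measurable_fst).prodMk measurable_snd) hP

theorem exists_inj (S : Type*) [MeasurableSpace S] [StandardBorelSpace S] :
    ∃ f : S → (ℕ → ℕ), Measurable f ∧ Injective f := by
  obtain ⟨f, hf, hi⟩ := MeasurableSpace.measurable_injection_nat_bool_of_countablySeparated S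
  refine ⟨fun s n => (f s n).toNat, ?_, ?_⟩
  · refine measurable_pi_iff.2 fun n => ?_
    exact (measurable_from_top (f := Bool.toNat)).comp ((measurable_pi_apply n).comp hf)
  · intro s t h
    apply hi
    funext n
    have h1 : (f s n).toNat = (f t n).toNat := congrFun h n
    revert h1
    cases f s n <;> cases f t n <;> simp

theorem exists_surj (S : Type*) [MeasurableSpace S] [StandardBorelSpace S] [Nonempty S] :
    ∃ g : (ℕ → ℕ) → S, Measurable g ∧ Surjective g := by
  obtain ⟨f, hf, hi⟩ := exists_inj S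
  obtain ⟨g, hg, hgf⟩ := (hf.measurableEmbedding hi).exists_measurable_extend
    (g := (id : S → S)) measurable_id fun _ => inferInstance
  exact ⟨g, hg, fun s => ⟨f s, congrFun hgf s⟩⟩

/-- Part `b` of a sequence. -/
def spl (v : ℕ → ℕ) (b : ℕ) : ℕ → ℕ := fun n => v (Nat.pair b n)

/-- The sequence with given parts. -/
def joi (f : ℕ → ℕ → ℕ) : ℕ → ℕ := fun n => f n.unpair.1 n.unpair.2

theorem spl_joi (f : ℕ → ℕ → ℕ) (b : ℕ) : spl (joi f) b = f b := by
  funext n; simp [spl, joi]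

@[fun_prop]
theorem measurable_spl (b : ℕ) : Measurable fun v => spl v b :=
  measurable_pi_iff.2 fun _ => measurable_pi_apply _

theorem An.proj [StandardBorelSpace Y] {A : Set (X × Y)} (h : An A) :
    An {x | ∃ y, (x, y) ∈ A} := by
  rcases isEmpty_or_nonempty Y with hY | hY
  · have : {x : X | ∃ y : Y, (x, y) ∈ A} = ∅ := by
      ext x; simp
    rw [this]; exact An.of_measurableSet MeasurableSet.empty
  obtain ⟨P, hP, h⟩ := h
  obtain ⟨g, hg, hs⟩ := exists_surj Y
  refine ⟨(fun p : X × (ℕ → ℕ) => ((p.1, g (spl p.2 0)), spl p.2 1)) ⁻¹' P, ?_, fun x => ?_⟩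
  · exact measurableSet_preimage (by fun_prop) hP
  · constructor
    · rintro ⟨y, hy⟩
      obtain ⟨v, hv⟩ := (h _).1 hy
      obtain ⟨w, rfl⟩ := hs y
      refine ⟨joi fun b => if b = 0 then w else v, ?_⟩
      simpa [spl_joi] using hv
    · rintro ⟨v, hv⟩
      exact ⟨_, (h _).2 ⟨_, hv⟩⟩

theorem An.iUnion {ι : Type*} [Countable ι] {A : ι → Set X} (h : ∀ i, An (A i)) :
    An (⋃ i, A i) := by
  choose P hP h using h
  refine ⟨⋃ i, P i, MeasurableSet.iUnion hP, fun x => ?_⟩
  simp only [mem_iUnion, h]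
  exact exists_comm

theorem An.iInter {ι : Type*} [Countable ι] {A : ι → Set X} (h : ∀ i, An (A i)) :
    An (⋂ i, A i) := by
  choose P hP h using h
  have := Encodable.ofCountable ι
  refine ⟨⋂ i, (fun p : X × (ℕ → ℕ) => (p.1, spl p.2 (Encodable.encode i))) ⁻¹' P i,
    MeasurableSet.iInter fun i => measurableSet_preimage (by fun_prop) (hP i), fun x => ?_⟩
  simp only [mem_iInter, h, mem_preimage]
  constructor
  · intro hv
    choose v hv using hv
    refine ⟨joi fun b => ((Encodable.decode b).map v).getD 0, fun i => ?_⟩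
    rw [spl_joi]
    simpa using hv i
  · rintro ⟨v, hv⟩ i
    exact ⟨_, hv i⟩

theorem An.imp {p : Prop} {A : Set X} (h : An A) : An (⋂ _ : p, A) := by
  by_cases hp : p
  · simpa [hp] using h
  · simpa [hp] using An.of_measurableSet MeasurableSet.univ

theorem An.union {A B : Set X} (hA : An A) (hB : An B) : An (A ∪ B) := by
  rw [union_eq_iUnion]
  exact An.iUnion fun b => by cases b <;> assumption

theorem An.inter {A B : Set X} (hA : An A) (hB : An B) : An (A ∩ B) := by
  rw [inter_eq_iInter]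
  exact An.iInter fun b => by cases b <;> assumption

theorem An.analyticSet_image [StandardBorelSpace X] {A : Set X} (h : An A)
    {f : X → (ℕ → ℕ)} (hf : Measurable f) : AnalyticSet (f '' A) := by
  obtain ⟨P, hP, h⟩ := h
  have : f '' A = (fun p : X × (ℕ → ℕ) => f p.1) '' P := by
    ext w
    constructor
    · rintro ⟨x, hx, rfl⟩
      obtain ⟨v, hv⟩ := (h x).1 hx
      exact ⟨(x, v), hv, rfl⟩
    · rintro ⟨⟨x, v⟩, hp, rfl⟩
      exact ⟨x, (h x).2 ⟨v, hp⟩, rfl⟩
  rw [this]
  exact hP.analyticSet_image (hf.comp measurable_fst)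

/-- Universal analytic sets. -/
theorem An.exists_code [StandardBorelSpace X] {A : Set X} (h : An A) {ψ : X → (ℕ → ℕ)}
    (hψ : Measurable ψ) (hi : Injective ψ) : ∃ a : K, ∀ x, x ∈ A ↔ Br (Tr a (ψ x)) := by
  obtain ⟨a, ha⟩ := BCI.exists_code (h.analyticSet_image hψ)
  exact ⟨a, fun x => by rw [← ha, hi.mem_set_image]⟩

/-- Suslin. -/
theorem An.measurableSet [StandardBorelSpace X] {A : Set X} (h : An A) (h' : An Aᶜ) :
    MeasurableSet A := by
  let := upgradeStandardBorel X
  have key : ∀ B : Set X, An B → AnalyticSet B := by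
    rintro B ⟨P, hP, h⟩
    have : B = (fun p : X × (ℕ → ℕ) => p.1) '' P := by
      ext x
      rw [h]
      constructor
      · rintro ⟨v, hv⟩; exact ⟨(x, v), hv, rfl⟩
      · rintro ⟨⟨x, v⟩, hp, rfl⟩; exact ⟨v, hp⟩
    rw [this]
    exact hP.analyticSet_image measurable_fst
  exact (key _ h).measurableSet_of_compl (key _ h')

/-! ## Projection along compact sets -/

/-- Membership is decided by finitely many values, locally. -/
def LD (S : Set (ℕ → ℕ)) : Prop :=
  ∀ ζ, ∃ N, ∀ ζ' : ℕ → ℕ, (∀ i < N, ζ' i = ζ i) → (ζ' ∈ S ↔ ζ ∈ S)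

theorem LD.compl {S : Set (ℕ → ℕ)} (h : LD S) : LD Sᶜ := fun ζ => by
  obtain ⟨N, hN⟩ := h ζ
  exact ⟨N, fun ζ' hζ => not_congr (hN ζ' hζ)⟩

theorem LD.isOpen {S : Set (ℕ → ℕ)} (h : LD S) : IsOpen S := by
  rw [isOpen_iff_mem_nhds]
  intro ζ hζ
  obtain ⟨N, hN⟩ := h ζ
  have : IsOpen (⋂ i ∈ Finset.range N, {ζ' : ℕ → ℕ | ζ' i = ζ i}) := by
    refine isOpen_biInter_finset fun i _ => ?_
    exact (isOpen_discrete ({ζ i} : Set ℕ)).preimage
      (continuous_apply (A := fun _ : ℕ => ℕ) i)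
  refine Filter.mem_of_superset (this.mem_nhds (by simp)) fun ζ' hζ' => ?_
  simp only [mem_iInter, Finset.mem_range, mem_ofPred_eq] at hζ'
  exact (hN ζ' hζ').2 hζ

theorem LD.isClosed {S : Set (ℕ → ℕ)} (h : LD S) : IsClosed S :=
  isOpen_compl_iff.1 h.compl.isOpen

theorem isCompact_le (u : ℕ → ℕ) : IsCompact {ζ : ℕ → ℕ | ζ ≤ u} := by
  have : {ζ : ℕ → ℕ | ζ ≤ u} = Set.pi univ fun n => Iic (u n) := by
    ext ζ; simp [Pi.le_def]
  rw [this]
  exact isCompact_univ_pi fun n => (finite_Iic (u n)).isCompact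

theorem LD.finset {ι : Type*} (F : Finset ι) {S : ι → Set (ℕ → ℕ)} (h : ∀ i, LD (S i)) :
    LD {ζ | ∀ i ∈ F, ζ ∈ S i} := by
  intro ζ
  choose N hN using fun i => h i ζ
  refine ⟨F.sup N, fun ζ' hζ' => forall₂_congr fun i hi => hN i ζ' fun j hj => hζ' j ?_⟩
  exact hj.trans_le (Finset.le_sup hi)

/-- Projection along a compact set preserves measurability. -/
theorem compact_proj {Q ι : Type*} [MeasurableSpace Q] [Countable ι]
    {H : ι → Set (Q × (ℕ → ℕ))} (hm : ∀ i, MeasurableSet (H i))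
    (hl : ∀ i q, LD {ζ | (q, ζ) ∈ H i}) :
    MeasurableSet {p : Q × (ℕ → ℕ) | ∃ ζ, ζ ≤ p.2 ∧ ∀ i, (p.1, ζ) ∈ H i} := by
  have key : {p : Q × (ℕ → ℕ) | ∃ ζ, ζ ≤ p.2 ∧ ∀ i, (p.1, ζ) ∈ H i} =
      ⋂ F : Finset ι, ⋃ θ : List ℕ, ⋂ i ∈ F,
        (fun p : Q × (ℕ → ℕ) => (p.1, fun n => min (p.2 n) (θ.getD n 0))) ⁻¹' H i := by
    ext ⟨q, u⟩
    simp only [mem_ofPred_eq, mem_iInter, mem_iUnion, mem_preimage]
    constructor
    · rintro ⟨ζ, hζ, h⟩ F
      obtain ⟨N, hN⟩ := LD.finset F (fun i => hl i q) ζ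
      refine ⟨List.ofFn fun i : Fin N => ζ i, fun i hi => ?_⟩
      refine (hN (fun n => min (u n) ((List.ofFn fun i : Fin N => ζ i).getD n 0)) ?_).2
        (fun i _ => h i) i hi
      intro n hn
      rw [List.getD_eq_getElem _ _ (by simpa using hn)]
      simpa using hζ n
    · intro h
      have := (isCompact_le u).inter_iInter_nonempty (fun i => {ζ | (q, ζ) ∈ H i})
        (fun i => (hl i q).isClosed) (by
          intro F
          obtain ⟨θ, hθ⟩ := h F
          refine ⟨_, ?_, mem_iInter₂.2 hθ⟩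
          intro n
          exact min_le_left _ _)
      obtain ⟨ζ, hζ, h'⟩ := this
      exact ⟨ζ, hζ, fun i => mem_iInter.1 h' i⟩
  rw [key]
  refine MeasurableSet.iInter fun F => MeasurableSet.iUnion fun θ =>
    F.measurableSet_biInter fun i _ => ?_
  refine measurableSet_preimage (measurable_fst.prodMk (measurable_pi_iff.2 fun n => ?_)) (hm i)
  exact (measurable_from_top (f := fun m : ℕ => min m (θ.getD n 0))).comp
    ((measurable_pi_apply n).comp measurable_snd)

end Pool.Agent.H8.BCI
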