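import Pool.Agent.H8.BCI.An

/-!
# The coding theorem
-/

namespace Pool.Agent.H8.BCI

open Set MeasureTheory Function

/-! ## Borel families of trees -/

section BT

variable {P Q : Type*} [MeasurableSpace P] [MeasurableSpace Q]

/-- Borel families of sets of nodes. -/
def BT (τ : P → Set (List ℕ)) : Prop := ∀ s, MeasurableSet {p | s ∈ τ p}

theorem BT.comp {τ : P → Set (List ℕ)} (h : BT τ) {f : Q → P} (hf : Measurable f) :
    BT fun q => τ (f q) := fun s => hf (h s)

theorem meas_rs {w : P → ℕ → ℕ} (hw : Measurable w) (m : ℕ) (σ : List ℕ) :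
    MeasurableSet {p | rs (w p) m = σ} := by
  induction m generalizing σ with
  | zero => exact MeasurableSet.const ([] = σ)
  | succ m ih =>
    cases σ with
    | nil => simp [rs]
    | cons x σ =>
      have : {p | rs (w p) (m + 1) = x :: σ} = {p | w p m = x} ∩ {p | rs (w p) m = σ} := by
        ext p; simp [rs]
      rw [this]
      exact (((measurable_pi_apply m).comp hw) (measurableSet_singleton x)).inter (ih σ)

theorem bt_Tr {a : P → K} {w : P → ℕ → ℕ} (ha : Measurable a) (hw : Measurable w) :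
    BT fun p => Tr (a p) (w p) := by
  intro s
  induction s with
  | nil => simp [nil_mem_Tr]
  | cons n t ih =>
    have : {p | n :: t ∈ Tr (a p) (w p)} = {p | t ∈ Tr (a p) (w p)} ∩
        ⋃ σ : List ℕ, ({p | rs (w p) (t.length + 1) = σ} ∩ {p | a p (σ, n :: t) = true}) := by
      ext p
      simp only [mem_ofPred_eq, mem_inter_iff, mem_iUnion, mem_Tr_cons]
      simp
    rw [this]
    refine ih.inter (MeasurableSet.iUnion fun σ => (meas_rs hw _ σ).inter ?_)
    exact ((measurable_pi_apply (σ, n :: t)).comp ha) (measurableSet_singleton true)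

theorem meas_push {e : P → List ℕ → ℕ} (he : Measurable e) (s σ : List ℕ) :
    MeasurableSet {p | push (e p) s = σ} := by
  induction s generalizing σ with
  | nil => exact MeasurableSet.const ([] = σ)
  | cons n s ih =>
    cases σ with
    | nil => simp [push]
    | cons x σ =>
      have : {p | push (e p) (n :: s) = x :: σ} = {p | e p (n :: s) = x} ∩
          {p | push (e p) s = σ} := by
        ext p; simp [push]
      rw [this]
      exact (((measurable_pi_apply (n :: s)).comp he) (measurableSet_singleton x)).inter (ih σ)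

theorem meas_push1 {e : P → List ℕ → ℕ} (he : Measurable e) (s σ : List ℕ) :
    MeasurableSet {p | push1 (e p) s = σ} := by
  induction s generalizing σ with
  | nil =>
    have : {p | push1 (e p) [] = σ} = (fun p => e p []) ⁻¹' {x | [x] = σ} := rfl
    rw [this]
    exact ((measurable_pi_apply []).comp he) (MeasurableSet.of_discrete)
  | cons n s ih =>
    cases σ with
    | nil => simp [push1]
    | cons x σ =>
      have : {p | push1 (e p) (n :: s) = x :: σ} = {p | e p (n :: s) = x} ∩
          {p | push1 (e p) s = σ} := by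
        ext p; simp [push1]
      rw [this]
      exact (((measurable_pi_apply (n :: s)).comp he) (measurableSet_singleton x)).inter (ih σ)

theorem BT.push_mem {τ : P → Set (List ℕ)} (h : BT τ) {e : P → List ℕ → ℕ} (he : Measurable e)
    (s : List ℕ) : MeasurableSet {p | push (e p) s ∈ τ p} := by
  have : {p | push (e p) s ∈ τ p} =
      ⋃ σ : List ℕ, ({p | push (e p) s = σ} ∩ {p | σ ∈ τ p}) := by
    ext p; simp
  rw [this]
  exact MeasurableSet.iUnion fun σ => (meas_push he s σ).inter (h σ)

theorem BT.push1_mem {τ : P → Set (List ℕ)} (h : BT τ) {e : P → List ℕ → ℕ} (he : Measurable e)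
    (s : List ℕ) : MeasurableSet {p | push1 (e p) s ∈ τ p} := by
  have : {p | push1 (e p) s ∈ τ p} =
      ⋃ σ : List ℕ, ({p | push1 (e p) s = σ} ∩ {p | σ ∈ τ p}) := by
    ext p; simp
  rw [this]
  exact MeasurableSet.iUnion fun σ => (meas_push1 he s σ).inter (h σ)

theorem an_hom {τ' τ : P → Set (List ℕ)} (h' : BT τ') (h : BT τ) :
    An {p | Hom (τ' p) (τ p)} := by
  refine An.proj (A := {p : P × (List ℕ → ℕ) | ∀ s ∈ τ' p.1, push p.2 s ∈ τ p.1})
    (An.of_measurableSet ?_)
  have : {p : P × (List ℕ → ℕ) | ∀ s ∈ τ' p.1, push p.2 s ∈ τ p.1} =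
      ⋂ s : List ℕ, ({p | s ∈ τ' p.1}ᶜ ∪ {p | push p.2 s ∈ τ p.1}) := by
    ext p
    simp only [mem_ofPred_eq, mem_iInter, mem_union, mem_compl_iff]
    exact forall_congr' fun s => imp_iff_not_or
  rw [this]
  exact MeasurableSet.iInter fun s => (measurable_fst (h' s)).compl.union
    ((h.comp measurable_fst).push_mem measurable_snd s)

theorem an_hom1 {τ' τ : P → Set (List ℕ)} (h' : BT τ') (h : BT τ) :
    An {p | Hom1 (τ' p) (τ p)} := by
  refine An.proj (A := {p : P × (List ℕ → ℕ) | ∀ s ∈ τ' p.1, push1 p.2 s ∈ τ p.1})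
    (An.of_measurableSet ?_)
  have : {p : P × (List ℕ → ℕ) | ∀ s ∈ τ' p.1, push1 p.2 s ∈ τ p.1} =
      ⋂ s : List ℕ, ({p | s ∈ τ' p.1}ᶜ ∪ {p | push1 p.2 s ∈ τ p.1}) := by
    ext p
    simp only [mem_ofPred_eq, mem_iInter, mem_union, mem_compl_iff]
    exact forall_congr' fun s => imp_iff_not_or
  rw [this]
  exact MeasurableSet.iInter fun s => (measurable_fst (h' s)).compl.union
    ((h.comp measurable_fst).push1_mem measurable_snd s)

/-! ## Borel choice of homomorphisms -/

theorem meas_sInf {F : P → ℕ → Prop} (h : ∀ m, MeasurableSet {z | F z m}) :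
    Measurable fun z => sInf {m | F z m} := by
  refine measurable_to_countable' fun k => ?_
  have : (fun z => sInf {m | F z m}) ⁻¹' {k} =
      ({z | F z k} ∩ ⋂ m : ℕ, ⋂ _ : m < k, {z | F z m}ᶜ) ∪
        ({_z | k = 0} ∩ ⋂ m : ℕ, {z | F z m}ᶜ) := by
    ext z
    simp only [mem_preimage, mem_singleton_iff, mem_union, mem_inter_iff, mem_ofPred_eq,
      mem_iInter, mem_compl_iff]
    constructor
    · rintro rfl
      rcases ({m | F z m} : Set ℕ).eq_empty_or_nonempty with he | hne
      · right
        refine ⟨by rw [he]; exact Nat.sInf_empty, fun m hm => ?_⟩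
        have : m ∈ ({m | F z m} : Set ℕ) := hm
        rw [he] at this
        exact this
      · exact Or.inl ⟨Nat.sInf_mem hne, fun m hm h => Nat.notMem_of_lt_sInf hm h⟩
    · rintro (⟨h1, h2⟩ | ⟨rfl, h2⟩)
      · refine le_antisymm (Nat.sInf_le h1) ?_
        by_contra hc
        exact h2 _ (not_le.1 hc) (Nat.sInf_mem (s := {m | F z m}) ⟨k, h1⟩)
      · have : ({m | F z m} : Set ℕ) = ∅ := by
          ext m; simpa using h2 m
        rw [this]; exact Nat.sInf_empty
  rw [this]
  refine ((h k).inter (MeasurableSet.iInter fun m => MeasurableSet.iInter fun _ =>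
    (h m).compl)).union (MeasurableSet.inter (MeasurableSet.const _) (MeasurableSet.iInter
      fun m => (h m).compl))

variable {T : Set (List ℕ)} {E : P → Set (List ℕ)}

theorem meas_L (hT : PC T) (hw : ¬ Br T) (hE : BT E) (s : List ℕ) (hs : s ∈ T) :
    ∀ t, MeasurableSet {z | L T (E z) s t} := by
  revert s
  refine bar hT hw fun s _ ih t => ?_
  have : {z | L T (E z) s t} = ⋂ n : ℕ, ⋂ _ : n :: s ∈ T, ⋃ m : ℕ,
      ({z | m :: t ∈ E z} ∩ {z | L T (E z) (n :: s) (m :: t)}) := by
    ext z
    simp only [mem_ofPred_eq, mem_iInter, mem_iUnion, mem_inter_iff]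
    exact L_iff
  rw [this]
  exact MeasurableSet.iInter fun n => MeasurableSet.iInter fun hn => MeasurableSet.iUnion
    fun m => (hE _).inter (ih n hn _)

theorem meas_gch (hT : PC T) (hw : ¬ Br T) (hE : BT E) (s : List ℕ) (hs : s ∈ T) (t : List ℕ) :
    Measurable fun z => gch T (E z) s t :=
  meas_sInf fun _ => (hE _).inter (meas_L hT hw hE s hs _)

theorem meas_eps (hT : PC T) (hw : ¬ Br T) (hE : BT E) {m₀ : P → ℕ} (hm : Measurable m₀)
    (s : List ℕ) (hs : s ∈ T) : ∀ σ, MeasurableSet {z | eps T (E z) [m₀ z] s = σ} := by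
  induction s with
  | nil =>
    intro σ
    have : {z | eps T (E z) [m₀ z] [] = σ} = m₀ ⁻¹' {x | [x] = σ} := rfl
    rw [this]
    exact hm MeasurableSet.of_discrete
  | cons n s ih =>
    intro σ
    cases σ with
    | nil => simp [eps]
    | cons x σ =>
      have : {z | eps T (E z) [m₀ z] (n :: s) = x :: σ} =
          {z | gch T (E z) (n :: s) σ = x} ∩ {z | eps T (E z) [m₀ z] s = σ} := by
        ext z
        simp only [eps, List.cons.injEq, mem_ofPred_eq, mem_inter_iff]
        constructor
        · rintro ⟨h1, h2⟩; rw [h2] at h1; exact ⟨h1, h2⟩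
        · rintro ⟨h1, h2⟩; rw [h2]; exact ⟨h1, rfl⟩
      rw [this]
      exact ((meas_gch hT hw hE _ hs σ) (measurableSet_singleton x)).inter (ih (hT _ _ hs) σ)

theorem borel_choice (hT : PC T) (h0 : [] ∈ T) (hw : ¬ Br T) (hE : BT E) :
    MeasurableSet {z | Hom1 T (E z)} ∧
      ∃ e : P → List ℕ → ℕ, Measurable e ∧ ∀ z, Hom1 T (E z) → ∀ s ∈ T, push1 (e z) s ∈ E z := by
  classical
  have hF : ∀ m, MeasurableSet {z | [m] ∈ E z ∧ L T (E z) [] [m]} := fun m =>
    (hE _).inter (meas_L hT hw hE [] h0 _)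
  have hm := meas_sInf hF
  set m₀ : P → ℕ := fun z => sInf {m | [m] ∈ E z ∧ L T (E z) [] [m]}
  constructor
  · have : {z | Hom1 T (E z)} = ⋃ m, {z | [m] ∈ E z ∧ L T (E z) [] [m]} := by
      ext z
      simp only [mem_ofPred_eq, mem_iUnion]
      exact ⟨L_of_hom1 h0, fun ⟨m, h1, h2⟩ => hom1_of_L hT h1 h2⟩
    rw [this]
    exact MeasurableSet.iUnion hF
  refine ⟨fun z s => if s ∈ T then ev T (E z) [m₀ z] (m₀ z) s else 0, ?_, ?_⟩
  · refine measurable_pi_iff.2 fun s => ?_
    by_cases hs : s ∈ T
    · simp only [hs, if_true]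
      cases s with
      | nil => exact hm
      | cons n s =>
        refine measurable_to_countable' fun k => ?_
        have : (fun z => ev T (E z) [m₀ z] (m₀ z) (n :: s)) ⁻¹' {k} =
            ⋃ σ : List ℕ, ({z | gch T (E z) (n :: s) σ = k} ∩
              {z | eps T (E z) [m₀ z] s = σ}) := by
          ext z
          simp only [mem_preimage, mem_singleton_iff, mem_iUnion, mem_inter_iff, mem_ofPred_eq, ev]
          simp
        rw [this]
        exact MeasurableSet.iUnion fun σ => ((meas_gch hT hw hE _ hs σ)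
          (measurableSet_singleton k)).inter (meas_eps hT hw hE hm s (hT _ _ hs) σ)
    · simp only [hs, if_false]
      exact measurable_const
  · intro z hz s hs
    have h1 : push1 (fun s => if s ∈ T then ev T (E z) [m₀ z] (m₀ z) s else 0) s =
        push1 (ev T (E z) [m₀ z] (m₀ z)) s := by
      clear hz
      induction s with
      | nil => simp [push1, h0]
      | cons n s ih => simp only [push1, hs, if_true, ih (hT _ _ hs)]
    rw [h1, push1_ev]
    obtain ⟨m, hm'⟩ := L_of_hom1 h0 hz
    have h2 := Nat.sInf_mem (s := {m | [m] ∈ E z ∧ L T (E z) [] [m]}) ⟨m, hm'⟩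
    exact (eps_spec hT h2.2 h2.1 s hs).1

end BT

end Pool.Agent.H8.BCI
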