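import Pool.Agent.H8.BCI.BT

/-!
# The coding theorem
-/

namespace Pool.Agent.H8.BCI

open Set MeasureTheory Function

/-! ## The partition given by the codes -/

section V

variable {k : ℕ} {Y : Type} [MeasurableSpace Y]

/-- The tree number `j` at the point `p`. -/
def Tz (ψ : (Fin k → K) × Y → ℕ → ℕ) (j : Fin k) (p : (Fin k → K) × Y) : Set (List ℕ) :=
  Tr (p.1 j) (ψ p)

/-- The points at which the tree number `j` is the first one of least rank. -/
def V (ψ : (Fin k → K) × Y → ℕ → ℕ) (j : Fin k) : Set ((Fin k → K) × Y) :=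
  {p | (∀ j', j < j' → ¬ Hom1 (Tz ψ j' p) (Tz ψ j p)) ∧
    ∀ j', j' < j → ¬ Hom (Tz ψ j' p) (Tz ψ j p)}

variable {ψ : (Fin k → K) × Y → ℕ → ℕ}

theorem bt_Tz (hψ : Measurable ψ) (j : Fin k) : BT (Tz ψ j) :=
  bt_Tr ((measurable_pi_apply j).comp measurable_fst) hψ

theorem an_V_compl (hψ : Measurable ψ) (j : Fin k) : An (V ψ j)ᶜ := by
  have : (V ψ j)ᶜ = (⋃ j' : {j' // j < j'}, {p | Hom1 (Tz ψ j' p) (Tz ψ j p)}) ∪
      ⋃ j' : {j' // j' < j}, {p | Hom (Tz ψ j' p) (Tz ψ j p)} := by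
    ext p
    simp only [V, mem_compl_iff, mem_ofPred_eq, mem_union, mem_iUnion, not_and_or, not_forall,
      not_not, Subtype.exists]
  rw [this]
  exact (An.iUnion fun j' => an_hom1 (bt_Tz hψ _) (bt_Tz hψ _)).union
    (An.iUnion fun j' => an_hom (bt_Tz hψ _) (bt_Tz hψ _))

omit [MeasurableSpace Y] in
theorem V_disj {j j' : Fin k} {p : (Fin k → K) × Y} (h : p ∈ V ψ j) (h' : p ∈ V ψ j') :
    j = j' := by
  have key : ∀ {j j' : Fin k}, j < j' → p ∈ V ψ j → p ∈ V ψ j' → False := by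
    intro j j' hlt h h'
    rcases hom1_or_hom (pc_Tr (p.1 j) (ψ p)) (pc_Tr (p.1 j') (ψ p)) (nil_mem_Tr _ _)
      (nil_mem_Tr _ _) with h1 | h1
    · exact h.1 j' hlt h1
    · exact h'.2 j hlt h1
  rcases lt_trichotomy j j' with hlt | rfl | hlt
  · exact (key hlt h h').elim
  · rfl
  · exact (key hlt h' h).elim

omit [MeasurableSpace Y] in
theorem V_iff (hk : 2 ≤ k) {p : (Fin k → K) × Y} {c : Fin k}
    (h : ∀ j, c ≠ j ↔ Br (Tz ψ j p)) (j : Fin k) : p ∈ V ψ j ↔ c = j := by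
  constructor
  · intro hp
    by_contra hc
    have hb := (h j).1 hc
    have : ∃ j' : Fin k, j' ≠ j := by
      have := Fin.nontrivial_iff_two_le.2 hk
      exact exists_ne j
    obtain ⟨j', hj'⟩ := this
    rcases lt_or_gt_of_ne hj' with hlt | hlt
    · exact hp.2 j' hlt (hb.hom _)
    · exact hp.1 j' hlt (hb.hom1 _)
  · rintro rfl
    have hb : ¬ Br (Tz ψ c p) := fun hb => (h c).2 hb rfl
    exact ⟨fun j' hj' h1 => hb (h1.br ((h j').1 hj'.ne) (nil_mem_Tr _ _)),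
      fun j' hj' h1 => hb (h1.br ((h j').1 hj'.ne'))⟩

end V

/-! ## Monotone codes -/

/-- Differences. -/
def dlt (ζ : ℕ → ℕ) (n : ℕ) : ℕ := ζ (n + 1) - ζ n

/-- The coded point. -/
def dy (ζ : ℕ → ℕ) : ℕ → ℕ := fun n => dlt ζ (2 * n)

/-- The coded map. -/
def de (ζ : ℕ → ℕ) : List ℕ → ℕ := fun t => dlt ζ (2 * Encodable.encode t + 1)

/-- The code of a pair. -/
def cod (y : ℕ → ℕ) (e : List ℕ → ℕ) : ℕ → ℕ := fun n =>
  ∑ i ∈ Finset.range n, if i % 2 = 0 then y (i / 2) else e (Denumerable.ofNat (List ℕ) (i / 2))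

theorem cod_mono (y : ℕ → ℕ) (e : List ℕ → ℕ) : Monotone (cod y e) := by
  refine monotone_nat_of_le_succ fun n => ?_
  unfold cod
  rw [Finset.sum_range_succ]
  exact Nat.le_add_right _ _

theorem dlt_cod (y : ℕ → ℕ) (e : List ℕ → ℕ) (n : ℕ) : dlt (cod y e) n =
    if n % 2 = 0 then y (n / 2) else e (Denumerable.ofNat (List ℕ) (n / 2)) := by
  unfold dlt cod
  rw [Finset.sum_range_succ, Nat.add_sub_cancel_left]

theorem dy_cod (y : ℕ → ℕ) (e : List ℕ → ℕ) : dy (cod y e) = y := by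
  funext n
  unfold dy
  rw [dlt_cod, if_pos (by omega)]
  congr 1; omega

theorem de_cod (y : ℕ → ℕ) (e : List ℕ → ℕ) : de (cod y e) = e := by
  funext t
  unfold de
  rw [dlt_cod, if_neg (by omega)]
  have : (2 * Encodable.encode t + 1) / 2 = Encodable.encode t := by omega
  rw [this, Denumerable.ofNat_encode]

theorem measurable_dlt (n : ℕ) : Measurable fun ζ : ℕ → ℕ => dlt ζ n :=
  (measurable_pi_apply (n + 1)).sub (measurable_pi_apply n)

theorem measurable_dy : Measurable dy := measurable_pi_iff.2 fun _ => measurable_dlt _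

theorem measurable_de : Measurable de := measurable_pi_iff.2 fun _ => measurable_dlt _

theorem measurable_cod (y : ℕ → ℕ) {P : Type*} [MeasurableSpace P] {e : P → List ℕ → ℕ}
    (he : Measurable e) : Measurable fun p => cod y (e p) := by
  refine measurable_pi_iff.2 fun n => ?_
  refine Finset.measurable_fun_sum _ fun i _ => ?_
  by_cases h : i % 2 = 0
  · simp only [h, if_true]; exact measurable_const
  · simp only [h, if_false]; exact (measurable_pi_apply _).comp he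

/-- The joint point. -/
def jx (x : ℕ → Bool) (y : ℕ → ℕ) : ℕ → ℕ := fun n => Nat.pair (x n).toNat (y n)

theorem jx_inj {x x' : ℕ → Bool} {y y' : ℕ → ℕ} (h : jx x y = jx x' y') : x = x' ∧ y = y' := by
  constructor
  · funext n
    have h1 := (Nat.pair_eq_pair.1 (congrFun h n)).1
    revert h1
    cases x n <;> cases x' n <;> simp
  · funext n
    exact (Nat.pair_eq_pair.1 (congrFun h n)).2

theorem continuous_jx : Continuous fun p : (ℕ → Bool) × (ℕ → ℕ) => jx p.1 p.2 := by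
  refine continuous_pi fun n => ?_
  have h1 : Continuous fun p : (ℕ → Bool) × (ℕ → ℕ) => (p.1 n, p.2 n) := by fun_prop
  exact (continuous_of_discreteTopology (f := fun z : Bool × ℕ => Nat.pair z.1.toNat z.2)).comp h1

theorem measurable_jx {P : Type*} [MeasurableSpace P] {x : P → ℕ → Bool} {y : P → ℕ → ℕ}
    (hx : Measurable x) (hy : Measurable y) : Measurable fun p => jx (x p) (y p) := by
  refine measurable_pi_iff.2 fun n => ?_
  exact (measurable_of_countable (fun z : Bool × ℕ => Nat.pair z.1.toNat z.2)).comp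
    (((measurable_pi_apply n).comp hx).prodMk ((measurable_pi_apply n).comp hy))

/-- Good codes. -/
def Good (b : K) (E : Set (List ℕ)) (x : ℕ → Bool) (ζ : ℕ → ℕ) : Prop :=
  Monotone ζ ∧ ∀ s ∈ Tr b (jx x (dy ζ)), push1 (de ζ) s ∈ E

theorem push1_de_congr (ζ : ℕ → ℕ) (s : List ℕ) :
    ∃ N, ∀ ζ' : ℕ → ℕ, (∀ i < N, ζ' i = ζ i) → push1 (de ζ') s = push1 (de ζ) s := by
  have h1 : ∀ t : List ℕ, ∀ ζ' : ℕ → ℕ, (∀ i < 2 * Encodable.encode t + 3, ζ' i = ζ i) →
      de ζ' t = de ζ t := by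
    intro t ζ' h
    unfold de dlt
    rw [h _ (by omega), h _ (by omega)]
  induction s with
  | nil => exact ⟨2 * Encodable.encode ([] : List ℕ) + 3, fun ζ' h => by rw [push1, push1, h1 _ _ h]⟩
  | cons n s ih =>
    obtain ⟨N, hN⟩ := ih
    refine ⟨max N (2 * Encodable.encode (n :: s) + 3), fun ζ' h => ?_⟩
    rw [push1, push1, hN ζ' fun i hi => h i (lt_max_of_lt_left hi),
      h1 _ ζ' fun i hi => h i (lt_max_of_lt_right hi)]

/-- The conditions in the definition of good codes. -/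
def GC {Q : Type*} (b : K) (E : Q → Set (List ℕ)) (x : Q → ℕ → Bool) :
    ℕ ⊕ List ℕ → Set (Q × (ℕ → ℕ))
  | Sum.inl n => {p | p.2 n ≤ p.2 (n + 1)}
  | Sum.inr s => {p | s ∈ Tr b (jx (x p.1) (dy p.2)) → push1 (de p.2) s ∈ E p.1}

theorem good_iff {Q : Type*} (b : K) (E : Q → Set (List ℕ)) (x : Q → ℕ → Bool) (q : Q)
    (ζ : ℕ → ℕ) : Good b (E q) (x q) ζ ↔ ∀ i, (q, ζ) ∈ GC b E x i := by
  constructor
  · rintro ⟨h1, h2⟩ (n | s)
    · exact h1 (Nat.le_succ n)
    · exact h2 s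
  · intro h
    exact ⟨monotone_nat_of_le_succ fun n => h (Sum.inl n), fun s => h (Sum.inr s)⟩

theorem meas_good {Q : Type*} [MeasurableSpace Q] (b : K) {E : Q → Set (List ℕ)} (hE : BT E)
    {x : Q → ℕ → Bool} (hx : Measurable x) :
    MeasurableSet {p : Q × (ℕ → ℕ) | ∃ ζ, ζ ≤ p.2 ∧ Good b (E p.1) (x p.1) ζ} := by
  simp only [good_iff]
  refine compact_proj ?_ ?_
  · rintro (n | s)
    · exact measurableSet_le ((measurable_pi_apply n).comp measurable_snd)
        ((measurable_pi_apply (n + 1)).comp measurable_snd)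
    · have : GC b E x (Sum.inr s) = {p : Q × (ℕ → ℕ) | s ∈ Tr b (jx (x p.1) (dy p.2))}ᶜ ∪
          {p | push1 (de p.2) s ∈ E p.1} := by
        ext p; exact imp_iff_not_or
      rw [this]
      refine (bt_Tr measurable_const (measurable_jx (hx.comp measurable_fst)
        (measurable_dy.comp measurable_snd)) s).compl.union ?_
      exact (hE.comp measurable_fst).push1_mem (measurable_de.comp measurable_snd) s
  · rintro (n | s) q ζ
    · refine ⟨n + 2, fun ζ' h => ?_⟩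
      show ζ' n ≤ ζ' (n + 1) ↔ ζ n ≤ ζ (n + 1)
      rw [h n (by omega), h (n + 1) (by omega)]
    · obtain ⟨N, hN⟩ := push1_de_congr ζ s
      refine ⟨max N (2 * s.length + 1), fun ζ' h => ?_⟩
      show (s ∈ Tr b (jx (x q) (dy ζ')) → push1 (de ζ') s ∈ E q) ↔
        (s ∈ Tr b (jx (x q) (dy ζ)) → push1 (de ζ) s ∈ E q)
      rw [hN ζ' fun i hi => h i (lt_max_of_lt_left hi),
        Tr_congr (w' := jx (x q) (dy ζ)) fun i hi => ?_]
      unfold jx dy dlt
      rw [h (2 * i) (lt_max_of_lt_right (by omega)), h (2 * i + 1) (lt_max_of_lt_right (by omega))]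

/-! ## The main theorem -/

section Main

variable {k : ℕ} {Y : Type} [MeasurableSpace Y]

/-- The points with no good code below a bound. -/
def DD (Yf : Set Y) (U : Y → ℕ → ℕ → ℕ) (b : K) (E : Set (List ℕ)) (x : ℕ → Bool) : Set Y :=
  {h | h ∈ Yf ∧ ∀ j, ¬ ∃ ζ, ζ ≤ U h j ∧ Good b E x ζ}

theorem meas_DD {Q : Type*} [MeasurableSpace Q] {Yf : Set Y} (hYf : MeasurableSet Yf)
    {U : Y → ℕ → ℕ → ℕ} (hU : Measurable U) (b : K) {E : Q → Set (List ℕ)} (hE : BT E)
    {x : Q → ℕ → Bool} (hx : Measurable x) :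
    MeasurableSet {p : Q × Y | p.2 ∈ DD Yf U b (E p.1) (x p.1)} := by
  have : {p : Q × Y | p.2 ∈ DD Yf U b (E p.1) (x p.1)} = Prod.snd ⁻¹' Yf ∩
      ⋂ j : ℕ, ((fun p : Q × Y => (p.1, U p.2 j)) ⁻¹'
        {p : Q × (ℕ → ℕ) | ∃ ζ, ζ ≤ p.2 ∧ Good b (E p.1) (x p.1) ζ})ᶜ := by
    ext p
    simp only [DD, mem_ofPred_eq, mem_inter_iff, mem_iInter, mem_preimage, mem_compl_iff]
  rw [this]
  refine (measurable_snd hYf).inter (MeasurableSet.iInter fun j => ?_)
  refine (measurableSet_preimage (measurable_fst.prodMk ?_) (meas_good b hE hx)).compl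
  exact (measurable_pi_apply j).comp (hU.comp measurable_snd)

theorem coding (hk : 2 ≤ k) [StandardBorelSpace Y] [Nonempty Y]
    (Yf : Set Y) (hYf : MeasurableSet Yf) {ι : Type} [Finite ι] (R : ι → Y → Y)
    (hR : ∀ i, Measurable (R i)) (U : Y → ℕ → ℕ → ℕ) (hU : Measurable U)
    (hinv : ∀ h ∈ Yf, ∀ i, R i h ∈ Yf ∧ ∀ ζ : ℕ → ℕ, Monotone ζ →
      ((∃ j, ζ ≤ U (R i h) j) ↔ (∃ j, ζ ≤ U h j)))
    (Col : (ℕ → ℕ) × Y → Fin k) (hCol : Measurable Col)
    (hprop : ∀ ζ : ℕ → ℕ, Monotone ζ → ∀ h ∈ Yf, (∀ j, ¬ ζ ≤ U h j) →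
      ∀ i, Col (ζ, h) ≠ Col (ζ, R i h))
    (hno : ¬ ∃ c : Y → Fin k, Measurable c ∧ ∀ h ∈ Yf, ∀ i, c h ≠ c (R i h))
    (B : Set (ℕ → Bool))
    (hB : ∃ P : Set ((ℕ → Bool) × (ℕ → ℕ)), AnalyticSet P ∧ B = {x | ∃ y, (x, y) ∉ P}) :
    ∃ (Z : Type) (_ : MeasurableSpace Z) (_ : StandardBorelSpace Z) (_ : Nonempty Z)
      (Dm : Set ((ℕ → Bool) × (Z × Y))), MeasurableSet Dm ∧
      (∀ x z h, (x, (z, h)) ∈ Dm → h ∈ Yf ∧ ∀ i, (x, (z, R i h)) ∈ Dm) ∧
      ∀ x, x ∈ B ↔ ∃ c : Z × Y → Fin k, Measurable c ∧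
        ∀ z h, (x, (z, h)) ∈ Dm → ∀ i, c (z, h) ≠ c (z, R i h) := by
  classical
  have : Nonempty (Fin k) := ⟨⟨0, by omega⟩⟩
  have : Nonempty ι := by
    by_contra hι
    rw [not_nonempty_iff] at hι
    exact hno ⟨fun _ => ⟨0, by omega⟩, measurable_const, fun h _ i => (hι.false i).elim⟩
  -- the code of the given set
  obtain ⟨P, hP, rfl⟩ := hB
  obtain ⟨b, hb⟩ : ∃ b : K, ∀ x y, (x, y) ∈ P ↔ Br (Tr b (jx x y)) := by
    obtain ⟨b, hb⟩ := exists_code (hP.image_of_continuous continuous_jx)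
    refine ⟨b, fun x y => ?_⟩
    rw [← hb]
    constructor
    · intro h; exact ⟨(x, y), h, rfl⟩
    · rintro ⟨⟨x', y'⟩, h, he⟩
      obtain ⟨rfl, rfl⟩ := jx_inj he
      exact h
  obtain ⟨ψ, hψ, hψi⟩ := exists_inj ((Fin k → K) × Y)
  obtain ⟨ψ', hψ', hψi'⟩ := exists_inj (K × (ℕ → Bool) × (Fin k → K))
  have hE0 : BT fun q : K × (ℕ → Bool) × (Fin k → K) => Tr q.1 (ψ' q) :=
    bt_Tr measurable_fst hψ'
  have hx0 : Measurable fun q : K × (ℕ → Bool) × (Fin k → K) => q.2.1 := by fun_prop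
  have hD := meas_DD hYf hU b hE0 hx0
  -- the fixed point
  obtain ⟨κ, hκ⟩ : ∃ κ : K, ∀ x z, (∃ h, h ∈ DD Yf U b (Tr κ (ψ' (κ, x, z))) x ∧
      ∃ i, ∀ j j', j ≠ j' → (z, h) ∉ V ψ j ∨ (z, R i h) ∉ V ψ j') ↔
      Br (Tr κ (ψ' (κ, x, z))) := by
    have hA : An {q : K × (ℕ → Bool) × (Fin k → K) | ∃ h, (q, h) ∈
        ({p : (K × (ℕ → Bool) × (Fin k → K)) × Y | p.2 ∈ DD Yf U b (Tr p.1.1 (ψ' p.1)) p.1.2.1} ∩
        ⋃ i, ⋂ j : Fin k, ⋂ j' : Fin k, ⋂ _ : j ≠ j',
          (((fun p : (K × (ℕ → Bool) × (Fin k → K)) × Y => (p.1.2.2, p.2)) ⁻¹' (V ψ j)ᶜ) ∪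
          ((fun p : (K × (ℕ → Bool) × (Fin k → K)) × Y => (p.1.2.2, R i p.2)) ⁻¹'
            (V ψ j')ᶜ)))} := by
      refine An.proj ((An.of_measurableSet hD).inter (An.iUnion fun i => An.iInter fun j =>
        An.iInter fun j' => An.imp ?_))
      refine ((an_V_compl hψ j).preimage (by fun_prop)).union
        ((an_V_compl hψ j').preimage ?_)
      have := hR i
      fun_prop
    obtain ⟨κ, hκ⟩ := hA.exists_code hψ' hψi'
    refine ⟨κ, fun x z => (Iff.trans ?_ (hκ (κ, x, z)))⟩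
    simp only [mem_ofPred_eq, mem_inter_iff, mem_iUnion, mem_iInter, mem_union, mem_preimage,
      mem_compl_iff]
  refine ⟨Fin k → K, inferInstance, inferInstance, inferInstance,
    {p | p.2.2 ∈ DD Yf U b (Tr κ (ψ' (κ, p.1, p.2.1))) p.1}, ?_, ?_, ?_⟩
  · exact measurableSet_preimage (f := fun p : (ℕ → Bool) × ((Fin k → K) × Y) =>
      ((κ, p.1, p.2.1), p.2.2)) (by fun_prop) hD
  · rintro x z h ⟨h1, h2⟩
    refine ⟨h1, fun i => ⟨(hinv h h1 i).1, ?_⟩⟩
    rintro j ⟨ζ, hζ, hg⟩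
    obtain ⟨j', hj'⟩ := ((hinv h h1 i).2 ζ hg.1).1 ⟨j, hζ⟩
    exact h2 j' ⟨ζ, hj', hg⟩
  intro x
  constructor
  · -- points of the set
    rintro ⟨y, hy⟩
    rw [hb] at hy
    set T := Tr b (jx x y) with hT
    have hEz : BT fun z : Fin k → K => Tr κ (ψ' (κ, x, z)) :=
      bt_Tr measurable_const (hψ'.comp (by fun_prop))
    obtain ⟨hA, e, he, he'⟩ := borel_choice (pc_Tr b (jx x y)) (nil_mem_Tr _ _) hy hEz
    have hWm : MeasurableSet {p : (Fin k → K) × Y | ¬ Hom1 T (Tr κ (ψ' (κ, x, p.1))) ∧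
        p.2 ∈ DD Yf U b (Tr κ (ψ' (κ, x, p.1))) x} :=
      (measurable_fst hA).compl.inter (measurableSet_preimage
        (f := fun p : (Fin k → K) × Y => ((κ, x, p.1), p.2)) (by fun_prop) hD)
    set W := {p : (Fin k → K) × Y | ¬ Hom1 T (Tr κ (ψ' (κ, x, p.1))) ∧
        p.2 ∈ DD Yf U b (Tr κ (ψ' (κ, x, p.1))) x} with hW
    have hgood : ∀ z h, (z, h) ∈ W → ∀ i, ∃ j j', j ≠ j' ∧ (z, h) ∈ V ψ j ∧
        (z, R i h) ∈ V ψ j' := by
      rintro z h ⟨h1, h2⟩ i
      have h3 : ¬ Br (Tr κ (ψ' (κ, x, z))) := fun hbr => h1 (hbr.hom1 _)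
      rw [← hκ] at h3
      push Not at h3
      exact h3 h h2 i
    have hcov : ∀ p ∈ W, ∃ j, p ∈ V ψ j := by
      rintro ⟨z, h⟩ hp
      obtain ⟨j, j', -, h1, -⟩ := hgood z h hp (Classical.arbitrary ι)
      exact ⟨j, h1⟩
    have hVm : ∀ j, MeasurableSet (W ∩ V ψ j) := by
      intro j
      refine An.measurableSet ?_ ?_
      · have : W ∩ V ψ j = W ∩ ⋂ j' : {j' // j' ≠ j}, (V ψ j')ᶜ := by
          ext p
          simp only [mem_inter_iff, mem_iInter, mem_compl_iff, Subtype.forall]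
          refine and_congr_right fun hp => ⟨fun h j' hj' h' => hj' (V_disj h' h), fun h => ?_⟩
          obtain ⟨j', hj'⟩ := hcov p hp
          by_cases hjj : j' = j
          · rwa [← hjj]
          · exact (h j' hjj hj').elim
        rw [this]
        exact (An.of_measurableSet hWm).inter (An.iInter fun j' => an_V_compl hψ _)
      · rw [compl_inter]
        exact (An.of_measurableSet hWm.compl).union (an_V_compl hψ j)
    refine ⟨fun p => if Hom1 T (Tr κ (ψ' (κ, x, p.1))) then Col (cod y (e p.1), p.2) else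
      if h : ∃ j, p ∈ W ∩ V ψ j then h.choose else Classical.arbitrary _, ?_, ?_⟩
    · refine Measurable.ite (measurable_fst hA)
        (hCol.comp ((measurable_cod y (he.comp measurable_fst)).prodMk measurable_snd)) ?_
      refine measurable_to_countable' fun j => ?_
      have : (fun p : (Fin k → K) × Y => if h : ∃ j, p ∈ W ∩ V ψ j then h.choose else
          Classical.arbitrary (Fin k)) ⁻¹' {j} = (W ∩ V ψ j) ∪
          ({_p | Classical.arbitrary (Fin k) = j} ∩ (⋃ j', W ∩ V ψ j')ᶜ) := by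
        ext p
        simp only [mem_preimage, mem_singleton_iff, mem_union, mem_inter_iff, mem_ofPred_eq,
          mem_compl_iff, mem_iUnion]
        by_cases h : ∃ j, p ∈ W ∧ p ∈ V ψ j
        · have h' : ∃ j, p ∈ W ∩ V ψ j := h
          rw [dif_pos h]
          have hs := h.choose_spec
          constructor
          · intro hj; left; rw [← hj]; exact hs
          · rintro (hj | ⟨-, hj⟩)
            · exact V_disj hs.2 hj.2
            · exact (hj h).elim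
        · rw [dif_neg h]
          constructor
          · intro hj; right; exact ⟨hj, h⟩
          · rintro (hj | ⟨hj, -⟩)
            · exact (h ⟨j, hj⟩).elim
            · exact hj
      rw [this]
      exact (hVm j).union ((MeasurableSet.const _).inter (MeasurableSet.iUnion hVm).compl)
    · intro z h hm i
      have hm' : h ∈ DD Yf U b (Tr κ (ψ' (κ, x, z))) x := hm
      by_cases hz : Hom1 T (Tr κ (ψ' (κ, x, z)))
      · simp only [hz, if_true]
        refine hprop _ (cod_mono _ _) h hm'.1 (fun j hj => hm'.2 j ⟨_, hj, cod_mono _ _, ?_⟩) i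
        rw [dy_cod, de_cod]
        exact he' z hz
      · simp only [hz, if_false]
        obtain ⟨j, j', hjj, h1, h2⟩ := hgood z h ⟨hz, hm⟩ i
        have hRm : (z, R i h) ∈ W := by
          refine ⟨hz, (hinv h hm'.1 i).1, ?_⟩
          rintro j ⟨ζ, hζ, hg⟩
          obtain ⟨j', hj'⟩ := ((hinv h hm'.1 i).2 ζ hg.1).1 ⟨j, hζ⟩
          exact hm'.2 j' ⟨ζ, hj', hg⟩
        have e1 : ∃ j, (z, h) ∈ W ∩ V ψ j := ⟨j, ⟨hz, hm⟩, h1⟩
        have e2 : ∃ j, (z, R i h) ∈ W ∩ V ψ j := ⟨j', hRm, h2⟩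
        rw [dif_pos e1, dif_pos e2, V_disj e1.choose_spec.2 h1, V_disj e2.choose_spec.2 h2]
        exact hjj
  · -- points outside the set
    rintro ⟨c, hc, hc'⟩
    by_contra hxB
    simp only [mem_ofPred_eq, not_exists, not_not] at hxB
    have hcode : ∀ j, ∃ a : K, ∀ p, p ∈ {p | c p ≠ j} ↔ Br (Tr a (ψ p)) := fun j =>
      (An.of_measurableSet (hc (measurableSet_singleton j)).compl).exists_code hψ hψi
    choose z hz using hcode
    have hV : ∀ h j, (z, h) ∈ V ψ j ↔ c (z, h) = j := fun h j =>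
      V_iff (c := c (z, h)) (p := (z, h)) hk (fun j => hz j (z, h)) j
    have hbad : ¬ Br (Tr κ (ψ' (κ, x, z))) := by
      rw [← hκ]
      rintro ⟨h, h1, i, h2⟩
      have h3 := hc' z h h1 i
      rcases h2 _ _ h3 with h4 | h4
      · exact h4 ((hV _ _).2 rfl)
      · exact h4 ((hV _ _).2 rfl)
    have hDf : ∀ h ∈ Yf, h ∈ DD Yf U b (Tr κ (ψ' (κ, x, z))) x := by
      refine fun h hh => ⟨hh, ?_⟩
      rintro j ⟨ζ, -, hg⟩
      have h1 : Hom1 (Tr b (jx x (dy ζ))) (Tr κ (ψ' (κ, x, z))) := ⟨de ζ, hg.2⟩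
      exact hbad (h1.br ((hb _ _).1 (hxB _)) (nil_mem_Tr _ _))
    exact hno ⟨fun h => c (z, h), hc.comp measurable_prodMk_left, fun h hh i => hc' z h (hDf h hh) i⟩

end Main

end Pool.Agent.H8.BCI
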